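import Pool.Agent.Helper95.PM.Stmts
import Pool.Agent.Helper12.PW.CUT

/-!
# PM, row CUTM: the cutoff functions of many nuclei
-/

set_option autoImplicit false

namespace Pool.Agent.Helper95.PW

open MeasureTheory Filter

theorem cm70_uni {E : Type} (f : ℕ → E → ℝ) (h : ∀ n, ∃ C : ℝ, ∀ y, f n y ≤ C) :
    ∃ C : ℝ, 1 ≤ C ∧ ∀ n : ℕ, n ≤ 4 → ∀ y, f n y ≤ C := by
  choose C hC using h
  refine ⟨1 + ∑ i ∈ Finset.range 5, |C i|, ?_, ?_⟩
  · have : 0 ≤ ∑ i ∈ Finset.range 5, |C i| := Finset.sum_nonneg fun i _ => abs_nonneg _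
    linarith
  · intro n hn y
    have h1 : |C n| ≤ ∑ i ∈ Finset.range 5, |C i| :=
      Finset.single_le_sum (f := fun i => |C i|) (fun i _ => abs_nonneg _)
        (Finset.mem_range.2 (by omega))
    have h2 := hC n y
    have h3 := le_abs_self (C n)
    linarith

theorem cm70_T : ∃ C : ℝ, 1 ≤ C ∧ ∀ n : ℕ, n ≤ 4 → ∀ t : ℝ,
    ‖iteratedFDeriv ℝ n Real.smoothTransition t‖ ≤ C := by
  have hT : ContDiff ℝ (⊤ : ℕ∞) Real.smoothTransition := Real.smoothTransition.contDiff
  have hd : HasCompactSupport (fderiv ℝ Real.smoothTransition) := by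
    apply HasCompactSupport.intro (isCompact_Icc (a := (0 : ℝ)) (b := 1))
    intro t ht
    by_cases h : t < 0
    · have h1 : Real.smoothTransition =ᶠ[nhds t] fun _ => (0 : ℝ) := by
        filter_upwards [Iio_mem_nhds h] with x hx
        exact Real.smoothTransition.zero_of_nonpos (le_of_lt hx)
      rw [h1.fderiv_eq]
      exact (hasFDerivAt_const (0 : ℝ) t).fderiv
    · have h2 : 1 < t := by
        by_contra h3
        exact ht ⟨not_lt.1 h, not_lt.1 h3⟩
      have h1 : Real.smoothTransition =ᶠ[nhds t] fun _ => (1 : ℝ) := by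
        filter_upwards [Ioi_mem_nhds h2] with x hx
        exact Real.smoothTransition.one_of_one_le (le_of_lt hx)
      rw [h1.fderiv_eq]
      exact (hasFDerivAt_const (1 : ℝ) t).fderiv
  apply cm70_uni (fun n t => ‖iteratedFDeriv ℝ n Real.smoothTransition t‖)
  intro n
  cases n with
  | zero =>
    refine ⟨1, fun t => ?_⟩
    show ‖iteratedFDeriv ℝ 0 Real.smoothTransition t‖ ≤ 1
    rw [norm_iteratedFDeriv_zero, Real.norm_eq_abs,
      abs_of_nonneg (Real.smoothTransition.nonneg t)]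
    exact Real.smoothTransition.le_one t
  | succ n =>
    have hdc : ContDiff ℝ (⊤ : ℕ∞) (fderiv ℝ Real.smoothTransition) :=
      hT.fderiv_right (by simp)
    have hc : Continuous (fun t => iteratedFDeriv ℝ n (fderiv ℝ Real.smoothTransition) t) :=
      hdc.continuous_iteratedFDeriv (by exact_mod_cast le_top)
    obtain ⟨C, hC⟩ := hc.bounded_above_of_compact_support (hd.iteratedFDeriv n)
    refine ⟨C, fun t => ?_⟩
    show ‖iteratedFDeriv ℝ (n + 1) Real.smoothTransition t‖ ≤ C
    rw [← norm_iteratedFDeriv_fderiv]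
    exact hC t

theorem cm70_chi {E : Type} [NormedAddCommGroup E] [NormedSpace ℝ E] (chi : E → ℝ)
    (h1 : ContDiff ℝ (⊤ : ℕ∞) chi) (h2 : HasCompactSupport chi) :
    ∃ C : ℝ, 1 ≤ C ∧ ∀ n : ℕ, n ≤ 4 → ∀ y, ‖iteratedFDeriv ℝ n chi y‖ ≤ C := by
  apply cm70_uni (fun n y => ‖iteratedFDeriv ℝ n chi y‖)
  intro n
  have hc : Continuous (fun t => iteratedFDeriv ℝ n chi t) :=
    h1.continuous_iteratedFDeriv (by exact_mod_cast le_top)
  exact hc.bounded_above_of_compact_support (h2.iteratedFDeriv n)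

theorem cm70_A {E : Type} [NormedAddCommGroup E] [NormedSpace ℝ E] (chi : E → ℝ)
    (h1 : ContDiff ℝ (⊤ : ℕ∞) chi) (h2 : HasCompactSupport chi) :
    ∃ c : ℝ, 1 ≤ c ∧ ∀ (M : ℕ) (X : Fin M → E) (n : ℕ), n ≤ 4 → ∀ y,
      ‖iteratedFDeriv ℝ n (fun y => Real.smoothTransition (∑ j, chi (y - X j))) y‖ ≤
        c * (c * ((M : ℝ) + 1)) ^ n := by
  obtain ⟨C1, hC1, hT⟩ := cm70_T
  obtain ⟨C2, hC2, hchi⟩ := cm70_chi chi h1 h2
  refine ⟨24 * C1 * C2, by nlinarith, ?_⟩
  intro M X n hn y
  have hs : ∀ j, ContDiff ℝ (⊤ : ℕ∞) (fun y => chi (y - X j)) := fun j =>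
    h1.comp (contDiff_id.sub contDiff_const)
  have hf : ContDiff ℝ (⊤ : ℕ∞) (fun y => ∑ j, chi (y - X j)) :=
    ContDiff.sum fun j _ => hs j
  have hM : (0 : ℝ) ≤ M := Nat.cast_nonneg M
  have hL : 1 ≤ C2 * ((M : ℝ) + 1) := by nlinarith
  have hD : ∀ i, 1 ≤ i → i ≤ n →
      ‖iteratedFDeriv ℝ i (fun y => ∑ j, chi (y - X j)) y‖ ≤ (C2 * ((M : ℝ) + 1)) ^ i := by
    intro i hi1 hi2
    have e : iteratedFDeriv ℝ i (fun y => ∑ j, chi (y - X j)) =
        ∑ j, iteratedFDeriv ℝ i (fun y => chi (y - X j)) :=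
      iteratedFDeriv_sum fun j _ => (hs j).of_le (by exact_mod_cast le_top)
    rw [e, Finset.sum_apply]
    calc ‖∑ j, iteratedFDeriv ℝ i (fun y => chi (y - X j)) y‖
        ≤ ∑ j, ‖iteratedFDeriv ℝ i (fun y => chi (y - X j)) y‖ := norm_sum_le _ _
      _ ≤ ∑ _j : Fin M, C2 := by
          apply Finset.sum_le_sum
          intro j _
          rw [iteratedFDeriv_comp_sub]
          exact hchi i (by omega) _
      _ = M * C2 := by rw [Finset.sum_const, Finset.card_univ, Fintype.card_fin, nsmul_eq_mul]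
      _ ≤ C2 * ((M : ℝ) + 1) := by nlinarith
      _ ≤ (C2 * ((M : ℝ) + 1)) ^ i := le_self_pow₀ hL (by omega)
  have h3 := norm_iteratedFDeriv_comp_le (𝕜 := ℝ) (g := Real.smoothTransition)
    (f := fun y => ∑ j, chi (y - X j)) (n := n) (N := ((⊤ : ℕ∞) : WithTop ℕ∞))
    Real.smoothTransition.contDiff hf (by exact_mod_cast le_top) y (C := C1)
    (D := C2 * ((M : ℝ) + 1)) (fun i hi => hT i (by omega) _) hD
  have h4 : ((n.factorial : ℕ) : ℝ) ≤ 24 := by
    have : n.factorial ≤ Nat.factorial 4 := Nat.factorial_le hn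
    have h5 : Nat.factorial 4 = 24 := by decide
    rw [h5] at this
    exact_mod_cast this
  refine h3.trans ?_
  have h6 : (C2 * ((M : ℝ) + 1)) ^ n ≤ (24 * C1 * C2 * ((M : ℝ) + 1)) ^ n := by
    apply pow_le_pow_left₀ (by positivity)
    have : C2 ≤ 24 * C1 * C2 := by nlinarith
    exact mul_le_mul_of_nonneg_right this (by positivity)
  have h7 : (n.factorial : ℝ) * C1 ≤ 24 * C1 * C2 := by nlinarith
  exact mul_le_mul h7 h6 (by positivity) (by positivity)

theorem cm70_w : ContDiff ℝ (⊤ : ℕ∞) (fun t : ℝ => Real.smoothTransition (2 - t ^ 2)) ∧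
    HasCompactSupport (fun t : ℝ => Real.smoothTransition (2 - t ^ 2)) := by
  constructor
  · exact Real.smoothTransition.contDiff.comp (contDiff_const.sub (contDiff_id.pow 2))
  · apply HasCompactSupport.intro (isCompact_Icc (a := (-2 : ℝ)) (b := 2))
    intro t ht
    apply Real.smoothTransition.zero_of_nonpos
    by_contra h
    apply ht
    constructor
    · nlinarith
    · nlinarith

theorem cm70_s : ∃ c : ℝ, 1 ≤ c ∧ ∀ (M : ℕ) (a : Fin M → ℝ), ∃ s : ℝ → ℝ,
    ContDiff ℝ (⊤ : ℕ∞) s ∧ (∀ j t, |t - a j| ≤ 1 → HasDerivAt s 1 t) ∧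
    ∀ n : ℕ, n ≤ 4 → ∀ t, ‖iteratedFDeriv ℝ n s t‖ ≤
      (c * ((M : ℝ) + 1)) * (c * ((M : ℝ) + 1)) ^ n := by
  obtain ⟨c0, hc0, hA⟩ := cm70_A _ cm70_w.1 cm70_w.2
  refine ⟨4 * c0, by linarith, ?_⟩
  intro M a
  set th : ℝ → ℝ := fun y => Real.smoothTransition
    (∑ j, Real.smoothTransition (2 - (y - a j) ^ 2)) with hth
  have hM : (0 : ℝ) ≤ M := Nat.cast_nonneg M
  have hthc : ContDiff ℝ (⊤ : ℕ∞) th := by
    apply Real.smoothTransition.contDiff.comp
    apply ContDiff.sum
    intro j _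
    exact cm70_w.1.comp (contDiff_id.sub contDiff_const)
  have hcont : Continuous th := hthc.continuous
  have hder : ∀ t, HasDerivAt (fun u => ∫ x in (0 : ℝ)..u, th x) (th t) t := fun t =>
    (hcont.integral_hasStrictDerivAt 0 t).hasDerivAt
  have hdd : deriv (fun u => ∫ x in (0 : ℝ)..u, th x) = th := by
    funext t
    exact (hder t).deriv
  have hL : 1 ≤ 4 * c0 * ((M : ℝ) + 1) := by nlinarith
  refine ⟨fun u => ∫ x in (0 : ℝ)..u, th x, ?_, ?_, ?_⟩
  · rw [contDiff_infty_iff_deriv]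
    refine ⟨fun t => (hder t).differentiableAt, ?_⟩
    rw [hdd]
    exact hthc
  · intro j t ht
    have h1 := hder t
    have h2 : th t = 1 := by
      apply Real.smoothTransition.one_of_one_le
      have h3 : Real.smoothTransition (2 - (t - a j) ^ 2) = 1 := by
        apply Real.smoothTransition.one_of_one_le
        have := sq_le_one_iff_abs_le_one (t - a j)
        have h4 := this.2 ht
        linarith
      rw [← h3]
      exact Finset.single_le_sum
        (f := fun j => Real.smoothTransition (2 - (t - a j) ^ 2))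
        (fun j _ => Real.smoothTransition.nonneg _) (Finset.mem_univ j)
    rwa [h2] at h1
  · intro n hn t
    cases n with
    | zero =>
      rw [norm_iteratedFDeriv_zero, pow_zero, mul_one]
      set g : ℝ → ℝ := fun x => ∑ j, Set.indicator (Set.Icc (a j - 2) (a j + 2))
        (fun _ => (1 : ℝ)) x with hg
      have hgi : ∀ j, Integrable (Set.indicator (Set.Icc (a j - 2) (a j + 2))
          (fun _ => (1 : ℝ))) := fun j =>
        (integrable_indicator_iff measurableSet_Icc).2 (by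
          apply integrableOn_const
          · rw [Real.volume_Icc]; exact ENNReal.ofReal_ne_top
          · exact enorm_ne_top)
      have hgint : Integrable g := integrable_finsetSum _ fun j _ => hgi j
      have hle : ∀ x, ‖th x‖ ≤ g x := by
        intro x
        have e0 : 0 ≤ th x := Real.smoothTransition.nonneg _
        have e1 : th x ≤ 1 := Real.smoothTransition.le_one _
        rw [Real.norm_eq_abs, abs_of_nonneg e0]
        have hgn : ∀ j, 0 ≤ Set.indicator (Set.Icc (a j - 2) (a j + 2)) (fun _ => (1 : ℝ)) x :=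
          fun j => Set.indicator_nonneg (fun _ _ => zero_le_one) _
        by_cases h : ∃ j, x ∈ Set.Icc (a j - 2) (a j + 2)
        · obtain ⟨j, hj⟩ := h
          refine e1.trans ?_
          have h5 : (1 : ℝ) = Set.indicator (Set.Icc (a j - 2) (a j + 2)) (fun _ => (1 : ℝ)) x := by
            rw [Set.indicator_of_mem hj]
          rw [h5]
          exact Finset.single_le_sum (f := fun j => Set.indicator (Set.Icc (a j - 2) (a j + 2))
            (fun _ => (1 : ℝ)) x) (fun j _ => hgn j) (Finset.mem_univ j)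
        · have h6 : th x = 0 := by
            apply Real.smoothTransition.zero_of_nonpos
            apply le_of_eq
            apply Finset.sum_eq_zero
            intro j _
            apply Real.smoothTransition.zero_of_nonpos
            by_contra h7
            apply h
            refine ⟨j, ?_, ?_⟩
            · nlinarith
            · nlinarith
          rw [h6]
          exact Finset.sum_nonneg fun j _ => hgn j
      have hthint : Integrable (fun x => ‖th x‖) := by
        apply hgint.mono hcont.norm.aestronglyMeasurable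
        filter_upwards with x
        rw [norm_norm]
        exact (hle x).trans (le_abs_self _)
      calc ‖∫ x in (0 : ℝ)..t, th x‖ ≤ ∫ x in Set.uIoc 0 t, ‖th x‖ :=
            intervalIntegral.norm_integral_le_integral_norm_uIoc
        _ ≤ ∫ x, ‖th x‖ := setIntegral_le_integral hthint
            (Filter.Eventually.of_forall fun x => norm_nonneg _)
        _ ≤ ∫ x, g x := integral_mono hthint hgint hle
        _ = ∑ _j : Fin M, (4 : ℝ) := by
            rw [integral_finsetSum _ fun j _ => hgi j]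
            apply Finset.sum_congr rfl
            intro j _
            rw [integral_indicator measurableSet_Icc, setIntegral_const, smul_eq_mul, mul_one,
              measureReal_def, Real.volume_Icc, ENNReal.toReal_ofReal (by linarith)]
            ring
        _ = 4 * (M : ℝ) := by
            rw [Finset.sum_const, Finset.card_univ, Fintype.card_fin, nsmul_eq_mul]
            ring
        _ ≤ 4 * c0 * ((M : ℝ) + 1) := by nlinarith
    | succ n =>
      rw [norm_iteratedFDeriv_eq_norm_iteratedDeriv, iteratedDeriv_succ', hdd,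
        ← norm_iteratedFDeriv_eq_norm_iteratedDeriv]
      have h1 := hA M a n (by omega) t
      refine h1.trans ?_
      have h2 : (c0 * ((M : ℝ) + 1)) ^ n ≤ (4 * c0 * ((M : ℝ) + 1)) ^ n := by
        apply pow_le_pow_left₀ (by positivity)
        nlinarith
      have h3 : c0 ≤ 4 * c0 * ((M : ℝ) + 1) := by nlinarith
      calc c0 * (c0 * ((M : ℝ) + 1)) ^ n
          ≤ (4 * c0 * ((M : ℝ) + 1)) * (4 * c0 * ((M : ℝ) + 1)) ^ n :=
            mul_le_mul h3 h2 (by positivity) (by positivity)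
        _ = (4 * c0 * ((M : ℝ) + 1)) ^ (n + 1) := by ring
        _ ≤ (4 * c0 * ((M : ℝ) + 1)) * (4 * c0 * ((M : ℝ) + 1)) ^ (n + 1) := by
            apply le_mul_of_one_le_left (by positivity) hL

theorem cm70_pd (f : R3 → ℝ) (hf : ContDiff ℝ (⊤ : ℕ∞) f) (i : Fin 3) (n : ℕ) (y : R3) :
    ‖iteratedFDeriv ℝ n (pd i f) y‖ ≤ ‖iteratedFDeriv ℝ (n + 1) f y‖ := by
  have h1 : ContDiff ℝ (⊤ : ℕ∞) (fderiv ℝ f) := hf.fderiv_right (by simp)
  have h2 := norm_iteratedFDeriv_clm_apply_const (𝕜 := ℝ) (f := fderiv ℝ f)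
    (c := (Pi.single i 1 : R3)) (x := y) (N := ((⊤ : ℕ∞) : WithTop ℕ∞)) (n := n)
    h1.contDiffAt (by exact_mod_cast le_top)
  have h3 : ‖(Pi.single i 1 : R3)‖ = 1 := by
    rw [Pi.norm_single, norm_one]
  rw [h3, one_mul, norm_iteratedFDeriv_fderiv] at h2
  exact h2

theorem cm70_pdc (f : R3 → ℝ) (hf : ContDiff ℝ (⊤ : ℕ∞) f) (i : Fin 3) :
    ContDiff ℝ (⊤ : ℕ∞) (pd i f) := by
  have h1 : ContDiff ℝ (⊤ : ℕ∞) (fderiv ℝ f) := hf.fderiv_right (by simp)
  exact h1.clm_apply contDiff_const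

theorem cm70_Scale (f : R3 → ℝ) (K : ℝ) (h1 : ContDiff ℝ (⊤ : ℕ∞) f) (h2 : HasCompactSupport f)
    (h : ∀ n : ℕ, n ≤ 4 → ∀ y, ‖iteratedFDeriv ℝ n f y‖ ≤ K) : Scale f K 1 := by
  have z : ∀ (g : R3 → ℝ) (y : R3), |g y| = ‖iteratedFDeriv ℝ 0 g y‖ := by
    intro g y
    rw [norm_iteratedFDeriv_zero, Real.norm_eq_abs]
  refine ⟨h1, h2, ?_, ?_, ?_, ?_⟩
  · intro i y
    rw [z]
    exact (cm70_pd f h1 i 0 y).trans (h 1 (by norm_num) y)
  · intro i j y
    rw [z, div_one]
    exact (cm70_pd _ (cm70_pdc f h1 j) i 0 y).trans ((cm70_pd f h1 j 1 y).trans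
      (h 2 (by norm_num) y))
  · intro i j l y
    rw [z, one_pow, div_one]
    exact (cm70_pd _ (cm70_pdc _ (cm70_pdc f h1 l) j) i 0 y).trans
      ((cm70_pd _ (cm70_pdc f h1 l) j 1 y).trans ((cm70_pd f h1 l 2 y).trans
        (h 3 (by norm_num) y)))
  · intro i j l m y
    rw [z, one_pow, div_one]
    exact (cm70_pd _ (cm70_pdc _ (cm70_pdc _ (cm70_pdc f h1 m) l) j) i 0 y).trans
      ((cm70_pd _ (cm70_pdc _ (cm70_pdc f h1 m) l) j 1 y).trans
        ((cm70_pd _ (cm70_pdc f h1 m) l 2 y).trans ((cm70_pd f h1 m 3 y).trans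
          (h 4 (by norm_num) y))))

noncomputable def cm70_c (y : R3) : ℝ :=
  Real.smoothTransition (3 - (y 0 ^ 2 + y 1 ^ 2 + y 2 ^ 2))

theorem cm70_c_cs : ContDiff ℝ (⊤ : ℕ∞) cm70_c ∧ HasCompactSupport cm70_c := by
  constructor
  · have c0 : ContDiff ℝ (⊤ : ℕ∞) (fun y : R3 => y 0) := contDiff_apply ℝ ℝ 0
    have c1 : ContDiff ℝ (⊤ : ℕ∞) (fun y : R3 => y 1) := contDiff_apply ℝ ℝ 1
    have c2 : ContDiff ℝ (⊤ : ℕ∞) (fun y : R3 => y 2) := contDiff_apply ℝ ℝ 2
    exact Real.smoothTransition.contDiff.comp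
      (contDiff_const.sub (((c0.pow 2).add (c1.pow 2)).add (c2.pow 2)))
  · apply HasCompactSupport.intro (isCompact_closedBall (0 : R3) 2)
    intro y hy
    apply Real.smoothTransition.zero_of_nonpos
    rw [mem_closedBall_zero_iff, not_le] at hy
    by_contra hc
    rw [not_le] at hc
    apply absurd hy
    rw [not_lt, pi_norm_le_iff_of_nonneg (by norm_num)]
    intro i
    refine (cut_abs_le_nr y i).trans ?_
    have h1 := cut_nr_sq y
    have h2 := cut_nr_nonneg y
    nlinarith

theorem cm70_c_zero (y : R3) (h : 2 < nr y) : cm70_c y = 0 := by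
  apply Real.smoothTransition.zero_of_nonpos
  have h1 := cut_nr_sq y
  nlinarith

theorem cm70_main : ∃ K0 : ℝ, 1 ≤ K0 ∧ ∀ (M : ℕ) (X : Fin M → R3) (m : Fin 3),
    ∃ G : R3 → ℝ, IsCut X m (K0 * ((M : ℝ) + 1) ^ 6) 1 G := by
  obtain ⟨c1, hc1, h1⟩ := cm70_A cm70_c cm70_c_cs.1 cm70_c_cs.2
  obtain ⟨c2, hc2, h2⟩ := cm70_s
  set c : ℝ := c1 * c2 with hc
  have hcc : 1 ≤ c := by nlinarith
  have hc1c : c1 ≤ c := by nlinarith
  have hc2c : c2 ≤ c := by nlinarith
  have hc6 : 1 ≤ c ^ 6 := one_le_pow₀ hcc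
  refine ⟨16 * c ^ 6, by linarith, ?_⟩
  intro M X m
  have hM : (0 : ℝ) ≤ M := Nat.cast_nonneg M
  obtain ⟨s, hs1, hs2, hs3⟩ := h2 M (fun j => X j m)
  set Psi : R3 → ℝ := fun y => Real.smoothTransition (∑ j, cm70_c (y - X j)) with hPsi
  have hPc : ContDiff ℝ (⊤ : ℕ∞) Psi := by
    apply Real.smoothTransition.contDiff.comp
    apply ContDiff.sum
    intro j _
    exact cm70_c_cs.1.comp (contDiff_id.sub contDiff_const)
  have hpr : ContDiff ℝ (⊤ : ℕ∞) (fun y : R3 => s (y m)) := hs1.comp (contDiff_apply ℝ ℝ m)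
  set L : ℝ := c * ((M : ℝ) + 1) with hLdef
  have hL : 1 ≤ L := by nlinarith
  have hP : ∀ n : ℕ, n ≤ 4 → ∀ y, ‖iteratedFDeriv ℝ n Psi y‖ ≤ c * L ^ n := by
    intro n hn y
    refine (h1 M X n hn y).trans ?_
    have h3 : (c1 * ((M : ℝ) + 1)) ^ n ≤ L ^ n := by
      apply pow_le_pow_left₀ (by positivity)
      exact mul_le_mul_of_nonneg_right hc1c (by positivity)
    exact mul_le_mul hc1c h3 (by positivity) (by positivity)
  have hS : ∀ n : ℕ, n ≤ 4 → ∀ y, ‖iteratedFDeriv ℝ n (fun y : R3 => s (y m)) y‖ ≤ L * L ^ n := by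
    intro n hn y
    have e : iteratedFDeriv ℝ n (fun y : R3 => s (y m)) y =
        (iteratedFDeriv ℝ n s (y m)).compContinuousLinearMap
          fun _ => (ContinuousLinearMap.proj m : R3 →L[ℝ] ℝ) :=
      ContinuousLinearMap.iteratedFDeriv_comp_right (ContinuousLinearMap.proj m : R3 →L[ℝ] ℝ)
        hs1 y (by exact_mod_cast le_top)
    rw [e]
    have h3 := ContinuousMultilinearMap.norm_compContinuousLinearMap_le
      (iteratedFDeriv ℝ n s (y m)) (fun _ => (ContinuousLinearMap.proj m : R3 →L[ℝ] ℝ))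
    have h4 : ‖(ContinuousLinearMap.proj m : R3 →L[ℝ] ℝ)‖ ≤ 1 := by
      apply ContinuousLinearMap.opNorm_le_bound _ zero_le_one
      intro z
      rw [one_mul]
      exact norm_le_pi_norm z m
    refine h3.trans ?_
    have h5 : ∏ _i : Fin n, ‖(ContinuousLinearMap.proj m : R3 →L[ℝ] ℝ)‖ ≤ 1 :=
      Finset.prod_le_one (fun _ _ => norm_nonneg _) (fun _ _ => h4)
    have h6 := hs3 n hn (y m)
    have h7 : c2 * ((M : ℝ) + 1) ≤ L := mul_le_mul_of_nonneg_right hc2c (by positivity)
    calc ‖iteratedFDeriv ℝ n s (y m)‖ *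
          ∏ _i : Fin n, ‖(ContinuousLinearMap.proj m : R3 →L[ℝ] ℝ)‖
        ≤ ‖iteratedFDeriv ℝ n s (y m)‖ * 1 := mul_le_mul_of_nonneg_left h5 (norm_nonneg _)
      _ = ‖iteratedFDeriv ℝ n s (y m)‖ := mul_one _
      _ ≤ _ := h6
      _ ≤ L * L ^ n := mul_le_mul h7 (pow_le_pow_left₀ (by positivity) h7 n)
          (by positivity) (by positivity)
  have hG1 : ContDiff ℝ (⊤ : ℕ∞) (fun y : R3 => s (y m) * Psi y) := hpr.mul hPc
  have hfar : ∀ y : R3, (∀ j, 2 < nr (y - X j)) → Psi y = 0 := by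
    intro y hy
    apply Real.smoothTransition.zero_of_nonpos
    apply le_of_eq
    apply Finset.sum_eq_zero
    intro j _
    exact cm70_c_zero _ (hy j)
  refine ⟨fun y => s (y m) * Psi y, ?_, ?_, ?_⟩
  · apply cm70_Scale _ _ hG1
    · apply HasCompactSupport.intro
        (isCompact_iUnion fun j : Fin M => isCompact_closedBall (X j) 2)
      intro y hy
      have h3 : Psi y = 0 := by
        apply hfar
        intro j
        by_contra h4
        apply hy
        rw [Set.mem_iUnion]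
        refine ⟨j, ?_⟩
        rw [Metric.mem_closedBall, dist_eq_norm, pi_norm_le_iff_of_nonneg (by norm_num)]
        intro i
        exact (cut_abs_le_nr (y - X j) i).trans (not_lt.1 h4)
      show s (y m) * Psi y = 0
      rw [h3, mul_zero]
    · intro n hn y
      have h3 := norm_iteratedFDeriv_mul_le (𝕜 := ℝ) (f := fun y : R3 => s (y m)) (g := Psi)
        (N := ((⊤ : ℕ∞) : WithTop ℕ∞)) hpr hPc y (n := n) (by exact_mod_cast le_top)
      refine h3.trans ?_
      calc ∑ i ∈ Finset.range (n + 1), (n.choose i : ℝ) *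
            ‖iteratedFDeriv ℝ i (fun y : R3 => s (y m)) y‖ * ‖iteratedFDeriv ℝ (n - i) Psi y‖
          ≤ ∑ i ∈ Finset.range (n + 1), (n.choose i : ℝ) * (c * L * L ^ n) := by
            apply Finset.sum_le_sum
            intro i hi
            rw [Finset.mem_range] at hi
            have h4 := hS i (by omega) y
            have h5 := hP (n - i) (by omega) y
            have h6 : ‖iteratedFDeriv ℝ i (fun y : R3 => s (y m)) y‖ *
                ‖iteratedFDeriv ℝ (n - i) Psi y‖ ≤ (L * L ^ i) * (c * L ^ (n - i)) :=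
              mul_le_mul h4 h5 (norm_nonneg _) (by positivity)
            have h7 : (L * L ^ i) * (c * L ^ (n - i)) = c * L * L ^ n := by
              have h8 : L ^ n = L ^ i * L ^ (n - i) := by
                rw [← pow_add]
                congr 1
                omega
              rw [h8]
              ring
            rw [mul_assoc]
            apply mul_le_mul_of_nonneg_left _ (Nat.cast_nonneg _)
            rw [← h7]
            exact h6
        _ = (2 : ℝ) ^ n * (c * L * L ^ n) := by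
            rw [← Finset.sum_mul]
            congr 1
            have := Nat.sum_range_choose n
            exact_mod_cast this
        _ ≤ (2 : ℝ) ^ 4 * (c * L * L ^ 4) := by
            apply mul_le_mul
            · exact pow_le_pow_right₀ (by norm_num) hn
            · apply mul_le_mul_of_nonneg_left _ (by positivity)
              exact pow_le_pow_right₀ hL hn
            · positivity
            · positivity
        _ = 16 * c ^ 6 * ((M : ℝ) + 1) ^ 5 := by
            rw [hLdef]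
            ring
        _ ≤ 16 * c ^ 6 * ((M : ℝ) + 1) ^ 6 := by
            apply mul_le_mul_of_nonneg_left _ (by positivity)
            exact pow_le_pow_right₀ (by linarith) (by norm_num)
  · intro j y hy i
    have hev : (fun y : R3 => s (y m) * Psi y) =ᶠ[nhds y] fun y => s (y m) := by
      have hop : IsOpen {z : R3 | (z - X j) 0 ^ 2 + (z - X j) 1 ^ 2 + (z - X j) 2 ^ 2 < 2} := by
        apply isOpen_lt _ continuous_const
        have c0 : ∀ i : Fin 3, Continuous (fun z : R3 => (z - X j) i) := fun i =>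
          (continuous_apply i).comp (continuous_id.sub continuous_const)
        exact (((c0 0).pow 2).add ((c0 1).pow 2)).add ((c0 2).pow 2)
      have hmem : y ∈ {z : R3 | (z - X j) 0 ^ 2 + (z - X j) 1 ^ 2 + (z - X j) 2 ^ 2 < 2} := by
        show (y - X j) 0 ^ 2 + (y - X j) 1 ^ 2 + (y - X j) 2 ^ 2 < 2
        have h3 := cut_nr_sq (y - X j)
        have h4 := cut_nr_nonneg (y - X j)
        nlinarith
      filter_upwards [hop.mem_nhds hmem] with z hz
      have h5 : Psi z = 1 := by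
        apply Real.smoothTransition.one_of_one_le
        have h6 : cm70_c (z - X j) = 1 := by
          apply Real.smoothTransition.one_of_one_le
          have h7 : (z - X j) 0 ^ 2 + (z - X j) 1 ^ 2 + (z - X j) 2 ^ 2 < 2 := hz
          linarith
        rw [← h6]
        exact Finset.single_le_sum (f := fun j => cm70_c (z - X j))
          (fun j _ => Real.smoothTransition.nonneg _) (Finset.mem_univ j)
      rw [h5, mul_one]
    have hd : HasDerivAt s 1 (y m) := by
      apply hs2 j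
      exact (cut_abs_le_nr (y - X j) m).trans hy
    have hd2 : HasFDerivAt (fun y : R3 => s (y m))
        ((1 : ℝ) • (ContinuousLinearMap.proj m : R3 →L[ℝ] ℝ)) y := by
      have h3 : HasFDerivAt (fun y : R3 => y m) (ContinuousLinearMap.proj m : R3 →L[ℝ] ℝ) y :=
        (ContinuousLinearMap.proj m : R3 →L[ℝ] ℝ).hasFDerivAt
      exact hd.comp_hasFDerivAt y h3
    show fderiv ℝ (fun y : R3 => s (y m) * Psi y) y (Pi.single i 1) = _
    rw [hev.fderiv_eq, hd2.fderiv, one_smul]
    show (Pi.single i 1 : R3) m = _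
    rw [Pi.single_apply]
    by_cases him : i = m
    · rw [if_pos him, if_pos him.symm]
    · rw [if_neg him, if_neg (fun h => him h.symm)]
  · intro y hy
    have h3 : Psi y = 0 := by
      apply hfar
      intro j
      have := hy j
      linarith
    show s (y m) * Psi y = 0
    rw [h3, mul_zero]

theorem cm70_nr_smul (a : ℝ) (ha : 0 ≤ a) (y : R3) : nr (a • y) = a * nr y := by
  unfold nr
  have : (a • y) 0 ^ 2 + (a • y) 1 ^ 2 + (a • y) 2 ^ 2 =
      a ^ 2 * (y 0 ^ 2 + y 1 ^ 2 + y 2 ^ 2) := by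
    show (a * y 0) ^ 2 + (a * y 1) ^ 2 + (a * y 2) ^ 2 = _
    ring
  rw [this, Real.sqrt_mul (sq_nonneg a), Real.sqrt_sq ha]

theorem st_CUTM : ST_CUTM := by
  obtain ⟨K0, hK0, h⟩ := cm70_main
  refine ⟨K0, hK0, ?_⟩
  intro M X m R hR
  obtain ⟨f, hf⟩ := h M (fun j => R⁻¹ • X j) m
  have hRi : 0 < R⁻¹ := inv_pos.2 hR
  have hcs : cut_CS f := ⟨hf.sc.sm, hf.sc.cs⟩
  have hnr : ∀ (y : R3) (j : Fin M), nr (R⁻¹ • y - R⁻¹ • X j) = R⁻¹ * nr (y - X j) := by
    intro y j
    rw [← smul_sub, cm70_nr_smul _ hRi.le]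
  have hcs2 : cut_CS (cut_sc R R f) := by
    constructor
    · have h1 : ContDiff ℝ (⊤ : ℕ∞) (fun y : R3 => R⁻¹ • y) := contDiff_id.const_smul R⁻¹
      have h2 : ContDiff ℝ (⊤ : ℕ∞) (fun y : R3 => f (R⁻¹ • y)) := hf.sc.sm.comp h1
      exact contDiff_const.mul h2
    · have h1 : HasCompactSupport (fun y : R3 => f (R⁻¹ • y)) :=
        hf.sc.cs.comp_smul hRi.ne'
      exact h1.mul_left
  refine ⟨cut_sc R R f, cut_Scale f _ R hR hcs hcs2 hf.sc, ?_, ?_⟩
  · intro j y hy i
    rw [cut_sc_pd hcs, mul_inv_cancel₀ hR.ne']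
    show 1 * pd i f (R⁻¹ • y) = _
    rw [one_mul]
    apply hf.near j
    show nr (R⁻¹ • y - R⁻¹ • X j) ≤ 1
    rw [hnr, inv_mul_le_one₀ hR]
    exact hy
  · intro y hy
    show R * f (R⁻¹ • y) = 0
    rw [hf.far, mul_zero]
    intro j
    show 2 * 1 < nr (R⁻¹ • y - R⁻¹ • X j)
    rw [hnr, mul_one, lt_inv_mul_iff₀ hR]
    have := hy j
    linarith

end Pool.Agent.Helper95.PW
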